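import Pool.Agent.MP_20201c_gt.H91.Defs0

/-! The double cover of the cycle space by measurable sets and its cocycle. -/

open MeasureTheory Set Filter Topology
open scoped ENNReal

namespace Pool.Agent.MP_20201c_gt.H18

open H91

/-- Measurable sets with the distance of areas in `Ω`. -/
def Up (_Ω : Set ℂ) : Type := {E : Set ℂ // MeasurableSet E}

noncomputable instance instUp (Ω : Set ℂ) : PseudoEMetricSpace (Up Ω) where
  edist E F := volume (symmDiff E.1 F.1 ∩ Ω)
  edist_self E := by simp
  edist_comm E F := by rw [symmDiff_comm]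
  edist_triangle E F G := by
    refine le_trans (measure_mono ?_) (measure_union_le _ _)
    rintro x ⟨hx, hΩ⟩
    simp only [mem_symmDiff, mem_union, mem_inter_iff] at hx ⊢
    tauto

variable {Ω : Set ℂ}

theorem up_edist (E F : Up Ω) : edist E F = volume (symmDiff E.1 F.1 ∩ Ω) := rfl

/-- Complement. -/
def cp (E : Up Ω) : Up Ω := ⟨E.1ᶜ, E.2.compl⟩

/-- The cycle bounded by a set. -/
noncomputable def pr (E : Up Ω) : Cyc Ω := SeparationQuotient.mk (show Ch2 Ω from E)

theorem edist_pr (E F : Up Ω) : edist (pr E) (pr F) = min (edist E F) (edist E (cp F)) :=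
  SeparationQuotient.edist_mk _ _

theorem edist_add_cp (E F : Up Ω) : edist E F + edist E (cp F) = volume Ω := by
  have h := measure_inter_add_sdiff (μ := volume) Ω (E.2.symmDiff F.2)
  rw [← h, up_edist, up_edist, inter_comm]
  congr 2
  ext x
  simp only [cp, mem_inter_iff, mem_symmDiff, mem_compl_iff, Set.mem_sdiff]
  tauto

theorem cp_cp (E : Up Ω) : cp (cp E) = E := Subtype.ext (compl_compl _)

theorem edist_cp_left (E F : Up Ω) : edist (cp E) F = edist E (cp F) := by
  rw [up_edist, up_edist]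
  congr 2
  ext x
  simp only [cp, mem_symmDiff, mem_compl_iff]
  tauto

theorem pr_cp (E : Up Ω) : pr (cp E) = pr E := by
  rw [← edist_eq_zero, edist_pr, edist_cp_left E (cp E), cp_cp, edist_self]
  simp

theorem pr_surj (z : Cyc Ω) : ∃ E : Up Ω, pr E = z := SeparationQuotient.surjective_mk z

theorem continuous_pr : Continuous (pr : Up Ω → Cyc Ω) :=
  (LipschitzWith.of_edist_le fun E F => by rw [edist_pr]; exact min_le_left _ _).continuous

theorem exists_near (z : Cyc Ω) (e : Up Ω) : ∃ F : Up Ω, pr F = z ∧ edist F e = edist z (pr e) := by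
  obtain ⟨E, rfl⟩ := pr_surj z
  rw [edist_pr]
  rcases min_choice (edist E e) (edist E (cp e)) with h | h
  · exact ⟨E, rfl, h.symm⟩
  · exact ⟨cp E, pr_cp E, by rw [h, edist_cp_left]⟩

theorem lift_step {X : Type} [TopologicalSpace X] {r : ℝ≥0∞} (h0 : 0 < r) (hr : r ≠ ⊤)
    (h4 : 4 * r ≤ volume Ω) {f : X → Cyc Ω} (hf : Continuous f) {L : X → Up Ω}
    (hL : Continuous L) (h : ∀ x, edist (f x) (pr (L x)) < r) :
    ∃ L' : X → Up Ω, Continuous L' ∧ ∀ x, pr (L' x) = f x := by
  choose L' h1 h2 using fun x => exists_near (f x) (L x)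
  refine ⟨L', continuous_iff_continuousAt.2 fun x => ?_, h1⟩
  have e1 : ∀ᶠ y in 𝓝 x, edist (L y) (L x) < r := EMetric.tendsto_nhds.1 (hL.tendsto x) r h0
  have e2 : ∀ᶠ y in 𝓝 x, edist (f y) (f x) < r := EMetric.tendsto_nhds.1 (hf.tendsto x) r h0
  refine EMetric.tendsto_nhds.2 fun ε hε => ?_
  filter_upwards [e1, e2, EMetric.tendsto_nhds.1 (hf.tendsto x) ε hε] with y a1 a2 a3
  have hm : edist (f y) (f x) = min (edist (L' y) (L' x)) (edist (L' y) (cp (L' x))) := by
    rw [← edist_pr, h1, h1]
  rcases min_choice (edist (L' y) (L' x)) (edist (L' y) (cp (L' x))) with hc | hc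
  · rwa [hm, hc] at a3
  · exfalso
    have b1 : edist (L' y) (L' x) ≤ r + r + r := by
      calc edist (L' y) (L' x) ≤ edist (L' y) (L y) + edist (L y) (L x) + edist (L x) (L' x) :=
            edist_triangle4 _ _ _ _
        _ ≤ r + r + r := by
            rw [edist_comm (L x), h2, h2]
            exact add_le_add (add_le_add (h y).le a1.le) (h x).le
    rw [hm, hc] at a2
    have b2 : edist (L' y) (L' x) + edist (L' y) (cp (L' x)) < r + r + r + r :=
      ENNReal.add_lt_add_of_le_of_lt (ne_top_of_le_ne_top (by finiteness) b1) b1 a2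
    rw [edist_add_cp] at b2
    have b3 : r + r + r + r = 4 * r := by ring
    exact absurd (b3 ▸ b2) (not_lt.2 h4)

theorem exists_lift (h0 : volume Ω ≠ 0) (ht : volume Ω ≠ ⊤) {n : ℕ} (f : C(Sm (n + 1), Cyc Ω)) :
    ∃ L : Sm (n + 1) → Up Ω, Continuous L ∧ ∀ x, pr (L x) = f x := by
  set r : ℝ≥0∞ := volume Ω / 4 with hr
  have r0 : 0 < r := ENNReal.div_pos h0 (by norm_num)
  have rt : r ≠ ⊤ := ENNReal.div_ne_top ht (by norm_num)
  have r4 : 4 * r ≤ volume Ω := ENNReal.mul_div_le
  let x₀ : Sm (n + 1) := stdSimplex.vertex 0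
  let c : unitInterval × Sm (n + 1) → Sm (n + 1) := fun q =>
    ⟨(1 - (q.1 : ℝ)) • x₀.1 + (q.1 : ℝ) • q.2.1,
      convex_stdSimplex ℝ _ x₀.2 q.2.2 (sub_nonneg.2 q.1.2.2) q.1.2.1 (by ring)⟩
  have hc : Continuous c := by
    refine Continuous.subtype_mk ?_ _
    fun_prop
  have hu := CompactSpace.uniformContinuous_of_continuous (f.continuous.comp hc)
  obtain ⟨δ, hδ, hd⟩ := EMetric.uniformContinuous_iff.1 hu r r0
  let P : unitInterval → Prop := fun t =>
    ∃ L : Sm (n + 1) → Up Ω, Continuous L ∧ ∀ x, pr (L x) = f (c (t, x))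
  have step : ∀ t t' : unitInterval, edist t' t < δ → P t → P t' := by
    rintro t t' h ⟨L, hL, hl⟩
    refine lift_step r0 rt r4 (f := fun x => f (c (t', x))) (by fun_prop) hL fun x => ?_
    rw [hl]
    refine hd (a := (t', x)) (b := (t, x)) ?_
    rw [Prod.edist_eq, edist_self]
    simpa using h
  have hcl : IsClopen {t | P t} := by
    refine ⟨⟨?_⟩, ?_⟩
    · refine EMetric.isOpen_iff.2 fun t ht' => ⟨δ, hδ, fun t' h hp => ht' (step t' t ?_ hp)⟩
      rw [edist_comm]; exact h
    · exact EMetric.isOpen_iff.2 fun t ht' => ⟨δ, hδ, fun t' h => step t t' h ht'⟩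
  have hP0 : P 0 := by
    obtain ⟨E, hE⟩ := pr_surj (f x₀)
    refine ⟨fun _ => E, continuous_const, fun x => hE.trans (congrArg f (Subtype.ext ?_))⟩
    simp [c]
  have hP1 : P 1 := by
    have := hcl.eq_univ ⟨0, hP0⟩
    exact (this ▸ mem_univ (1 : unitInterval) : (1 : unitInterval) ∈ {t | P t})
  obtain ⟨L, hL, hl⟩ := hP1
  refine ⟨L, hL, fun x => (hl x).trans (congrArg f (Subtype.ext ?_))⟩
  simp [c]

open Classical in
/-- Whether two sets differ. -/
noncomputable def sgn (E F : Up Ω) : ZMod 2 := if edist E F = 0 then 0 else 1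

theorem dich {E F : Up Ω} (h : pr E = pr F) : edist E F = 0 ∨ edist E F = volume Ω := by
  rw [← edist_eq_zero, edist_pr] at h
  rcases min_choice (edist E F) (edist E (cp F)) with hc | hc
  · exact Or.inl (hc ▸ h)
  · right
    rw [← edist_add_cp E F, ← hc, h, add_zero]

theorem sgn_add (h0 : volume Ω ≠ 0) {E F G : Up Ω} (h1 : pr E = pr F) (h2 : pr F = pr G) :
    sgn E G = sgn E F + sgn F G := by
  unfold sgn
  by_cases a : edist E F = 0
  · have : edist E G = edist F G := edist_congr_right a
    rw [this, if_pos a, zero_add]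
  · by_cases b : edist F G = 0
    · have : edist E G = edist E F := (edist_congr_left b).symm
      rw [this, if_pos b, add_zero]
    · have a' : edist E (cp F) = 0 := by
        have h := h1
        rw [← edist_eq_zero, edist_pr] at h
        rcases min_choice (edist E F) (edist E (cp F)) with hc | hc
        · exact absurd (hc ▸ h) a
        · exact hc ▸ h
      have b' : edist (cp F) G = 0 := by
        have h := h2
        rw [← edist_eq_zero, edist_pr] at h
        rcases min_choice (edist F G) (edist F (cp G)) with hc | hc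
        · exact absurd (hc ▸ h) b
        · rw [edist_cp_left]; exact hc ▸ h
      have c : edist E G = 0 := by
        have := edist_triangle E (cp F) G
        rw [a', b', add_zero] at this
        exact le_antisymm this zero_le
      rw [if_pos c, if_neg a, if_neg b]
      decide

theorem sgn_comm (E F : Up Ω) : sgn E F = sgn F E := by unfold sgn; rw [edist_comm]

theorem sgn_const (h0 : volume Ω ≠ 0) (ht : volume Ω ≠ ⊤) {X : Type} [TopologicalSpace X]
    [PreconnectedSpace X] {L L' : X → Up Ω} (hL : Continuous L) (hL' : Continuous L')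
    (h : ∀ x, pr (L x) = pr (L' x)) (x y : X) : sgn (L x) (L' x) = sgn (L y) (L' y) := by
  have hc : Continuous fun x => edist (L x) (L' x) := hL.edist hL'
  have key : ∀ x y, edist (L x) (L' x) = 0 → edist (L y) (L' y) = 0 := by
    intro x y hx
    rcases dich (h y) with hy | hy
    · exact hy
    · exfalso
      have hm : volume Ω / 2 ∈ Icc (edist (L x) (L' x)) (edist (L y) (L' y)) := by
        rw [hx, hy]
        exact ⟨zero_le, ENNReal.half_le_self⟩
      obtain ⟨z, hz⟩ := intermediate_value_univ x y hc hm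
      rcases dich (h z) with h' | h'
      · exact (ENNReal.half_pos h0).ne' (hz.symm.trans h')
      · exact (ENNReal.half_lt_self h0 ht).ne (hz.symm.trans h')
  unfold sgn
  by_cases a : edist (L x) (L' x) = 0
  · rw [if_pos a, if_pos (key x y a)]
  · rw [if_neg a, if_neg fun b => a (key y x b)]

/-- The cocycle of the double cover. -/
theorem exists_cocycle (h0 : volume Ω ≠ 0) (ht : volume Ω ≠ ⊤) :
    ∃ lam : C(Sm 2, Cyc Ω) → ZMod 2, IsCocycle lam ∧
      ∀ (τ : C(Sm 2, Cyc Ω)) (L : Sm 2 → Up Ω), Continuous L → (∀ x, pr (L x) = τ x) →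
        τ (stdSimplex.vertex 0) = τ (stdSimplex.vertex 1) →
        lam τ = sgn (L (stdSimplex.vertex 0)) (L (stdSimplex.vertex 1)) := by
  choose rep hrep using (pr_surj : ∀ z : Cyc Ω, _)
  choose lf hlf hlf' using fun τ : C(Sm 2, Cyc Ω) => exists_lift h0 ht τ
  let u : (Sm 2 → Up Ω) → Fin 2 → ZMod 2 := fun L i =>
    sgn (L (stdSimplex.vertex i)) (rep (pr (L (stdSimplex.vertex i))))
  have indep : ∀ (τ : C(Sm 2, Cyc Ω)) (L : Sm 2 → Up Ω), Continuous L → (∀ x, pr (L x) = τ x) →
      u (lf τ) 0 + u (lf τ) 1 = u L 0 + u L 1 := by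
    intro τ L hL hl
    have e : ∀ x, pr (lf τ x) = pr (L x) := fun x => (hlf' τ x).trans (hl x).symm
    have a : ∀ i, u (lf τ) i =
        sgn (lf τ (stdSimplex.vertex i)) (L (stdSimplex.vertex i)) + u L i := by
      intro i
      simp only [u]
      rw [e]
      exact sgn_add h0 (e _) (hrep _).symm
    rw [a, a, sgn_const h0 ht (hlf τ) hL e (stdSimplex.vertex 0) (stdSimplex.vertex 1)]
    generalize sgn (lf τ (stdSimplex.vertex 1)) (L (stdSimplex.vertex 1)) = s
    have h2 : (2 : ZMod 2) = 0 := by decide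
    linear_combination s * h2
  refine ⟨fun τ => u (lf τ) 0 + u (lf τ) 1, fun σ => ?_, fun τ L hL hl hv => ?_⟩
  · obtain ⟨L, hL, hl⟩ := exists_lift h0 ht σ
    let w : Fin 3 → ZMod 2 := fun k =>
      sgn (L (stdSimplex.vertex k)) (rep (pr (L (stdSimplex.vertex k))))
    have a : ∀ i : Fin 3, u (lf (σ.comp (face 2 i))) 0 + u (lf (σ.comp (face 2 i))) 1 =
        w (i.succAbove 0) + w (i.succAbove 1) := by
      intro i
      rw [indep (σ.comp (face 2 i)) (L ∘ face 2 i) (hL.comp (face 2 i).continuous)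
        fun x => hl _]
      simp only [u, w, face, Function.comp_apply, ContinuousMap.coe_mk, stdSimplex.map_vertex]
    simp only [a]
    rw [Fin.sum_univ_succ, Fin.sum_univ_succ, Fin.sum_univ_succ, Fin.sum_univ_zero]
    have h2 : (2 : ZMod 2) = 0 := by decide
    show w 1 + w 2 + (w 0 + w 2 + (w 0 + w 1 + 0)) = 0
    linear_combination (w 0 + w 1 + w 2) * h2
  · show u (lf τ) 0 + u (lf τ) 1 = _
    rw [indep τ L hL hl]
    have e : pr (L (stdSimplex.vertex 1)) = pr (L (stdSimplex.vertex 0)) := by rw [hl, hl, hv]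
    simp only [u]
    rw [e, sgn_comm (L (stdSimplex.vertex 1))]
    exact (sgn_add h0 (hrep _).symm ((hrep _).trans e.symm)).symm

end Pool.Agent.MP_20201c_gt.H18
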